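import Pool.Agent.V11229.DStarCore
import Pool.Agent.V11229.Tuples

/-!
# Subgraph Isomorphism on `P₅`-subgraph-free graphs is `NP`-complete
-/

namespace Pool.Agent.Results.MP_143e72_lc.SubIsoP5NPComplete

open Pool.Agent.NPC Pool.Agent.V11229 Pool.Agent.V11229.DS SimpleGraph

/-- SUBGRAPH ISOMORPHISM on `F`-subgraph-free graphs: an instance is a pair of a host `I.1` and a
pattern `I.2`. Both do not contain `F` as a subgraph, and the host contains the pattern as a
subgraph. -/
def SubIso {W : Type} (F : SimpleGraph W) (I : FG × FG) : Prop :=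
  (F.Free I.1.G ∧ F.Free I.2.G) ∧ I.2.G.IsContained I.1.G

/-! ### Membership in `NP` -/

/-- the list of numbers is a copy of the graph with the given list of edges -/
def isCopy (m : ℕ) (E : List (ℕ × ℕ)) (M : LMat Bool) (l : List ℕ) : Bool :=
  (List.range m).all (fun i => (List.range m).all (fun j => decide (i = j) ||
    !(decide (l.getD i 0 = l.getD j 0)))) &&
  E.all (fun e => M.ent false (l.getD e.1 0) (l.getD e.2 0))

/-- the search for a copy -/
def hasCopy (m : ℕ) (E : List (ℕ × ℕ)) (M : LMat Bool) : Bool := anyT m M.n [] (isCopy m E M)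

theorem isCopy_poly (m : ℕ) (E : List (ℕ × ℕ)) :
    Poly (fun x : LMat Bool × List ℕ => isCopy m E x.1 x.2) := by
  unfold isCopy
  fun_prop

theorem hasCopy_poly (m : ℕ) (E : List (ℕ × ℕ)) : Poly (hasCopy m E) :=
  Poly.anyT m (p := isCopy m E) (UPoly.lmat_n NPC.Poly.id) (NPC.Poly.const []) (isCopy_poly m E)

/-- the list of the edges of a graph -/
noncomputable def edgesL {m : ℕ} (F : SimpleGraph (Fin m)) : List (ℕ × ℕ) := by
  classical
  exact ((Finset.univ.filter (fun e : Fin m × Fin m => F.Adj e.1 e.2)).toList).map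
    (fun e => ((e.1 : ℕ), (e.2 : ℕ)))

theorem mem_edgesL {m : ℕ} (F : SimpleGraph (Fin m)) (e : ℕ × ℕ) :
    e ∈ edgesL F ↔ ∃ i j : Fin m, F.Adj i j ∧ e = ((i : ℕ), (j : ℕ)) := by
  classical
  unfold edgesL
  simp only [List.mem_map, Finset.mem_toList, Finset.mem_filter, Finset.mem_univ, true_and]
  constructor
  · rintro ⟨⟨i, j⟩, h, rfl⟩
    exact ⟨i, j, h, rfl⟩
  · rintro ⟨i, j, h, rfl⟩
    exact ⟨(i, j), h, rfl⟩

theorem hasCopy_iff {m : ℕ} (F : SimpleGraph (Fin m)) (X : FG) :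
    hasCopy m (edgesL F) X.mat = true ↔ F.IsContained X.G := by
  rw [isContained_iff_fun]
  unfold hasCopy
  rw [anyT_iff]
  simp only [List.append_nil, isCopy, Bool.and_eq_true, List.all_eq_true, List.mem_range,
    Bool.or_eq_true, decide_eq_true_eq, Bool.not_eq_true', decide_eq_false_iff_not, FG.mat_n]
  constructor
  · rintro ⟨l, hl, hlt, h1, h2⟩
    have hget : ∀ i < m, l.getD i 0 < X.n := by
      intro i hi
      rw [List.getD_eq_getElem _ _ (by omega)]
      exact hlt _ (List.getElem_mem _)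
    refine ⟨fun x => ⟨l.getD x 0, hget x x.isLt⟩, ?_, ?_⟩
    · intro x y hxy
      have h3 := congrArg Fin.val hxy
      simp only at h3
      rcases h1 x x.isLt y y.isLt with h | h
      · exact Fin.ext h
      · exact absurd h3 h
    · intro x y hxy
      have h3 := h2 ((x : ℕ), (y : ℕ)) ((mem_edgesL F _).2 ⟨x, y, hxy, rfl⟩)
      exact (X.ent_iff ⟨l.getD x 0, _⟩ ⟨l.getD y 0, _⟩).1 h3
  · rintro ⟨f, hf, hadj⟩
    have hl : ∀ k : Fin m, (List.ofFn (fun i => (f i : ℕ))).getD k 0 = f k := by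
      intro k
      simp [List.getD_eq_getElem?_getD]
    refine ⟨List.ofFn (fun i => (f i : ℕ)), by simp, ?_, ?_, ?_⟩
    · intro x hx
      rw [List.mem_ofFn] at hx
      obtain ⟨k, rfl⟩ := hx
      exact (f k).isLt
    · intro i hi j hj
      by_cases hij : i = j
      · exact Or.inl hij
      · right
        have e1 := hl ⟨i, hi⟩
        have e2 := hl ⟨j, hj⟩
        simp only at e1 e2
        rw [e1, e2]
        intro h
        have h2 := hf (Fin.ext h)
        exact hij (congrArg Fin.val h2)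
    · intro e he
      obtain ⟨i, j, hij, rfl⟩ := (mem_edgesL F e).1 he
      simp only
      rw [hl i, hl j]
      exact (X.ent_iff _ _).2 (hadj i j hij)

/-- the verifier: the certificate lists the images of the vertices of the pattern -/
def ver (m : ℕ) (E : List (ℕ × ℕ)) (x : (LMat Bool × LMat Bool) × List ℕ) : Bool :=
  (!(hasCopy m E x.1.1) && !(hasCopy m E x.1.2)) &&
  (List.range x.1.2.n).all (fun i => decide (x.2.getD i 0 < x.1.1.n) &&
    (List.range x.1.2.n).all (fun j => (decide (i = j) ||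
      !(decide (x.2.getD i 0 = x.2.getD j 0))) &&
      (!(x.1.2.ent false i j) || x.1.1.ent false (x.2.getD i 0) (x.2.getD j 0))))

theorem ver_poly (m : ℕ) (E : List (ℕ × ℕ)) : Poly (ver m E) := by
  unfold ver
  have h0 : Poly (fun x : (LMat Bool × LMat Bool) × List ℕ => hasCopy m E x.1.1) :=
    (hasCopy_poly m E).comp (by fun_prop)
  have h1 : Poly (fun x : (LMat Bool × LMat Bool) × List ℕ => hasCopy m E x.1.2) :=
    (hasCopy_poly m E).comp (by fun_prop)
  refine NPC.Poly.and (by fun_prop) ?_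
  refine Poly.allRange (n := fun x : (LMat Bool × LMat Bool) × List ℕ => x.1.2.n)
    (p := fun x i => decide (x.2.getD i 0 < x.1.1.n) &&
    (List.range x.1.2.n).all (fun j => (decide (i = j) ||
      !(decide (x.2.getD i 0 = x.2.getD j 0))) &&
      (!(x.1.2.ent false i j) || x.1.1.ent false (x.2.getD i 0) (x.2.getD j 0))))
    (UPoly.lmat_n (by fun_prop)) ?_
  refine NPC.Poly.and (by fun_prop) ?_
  exact Poly.allRange (n := fun x : ((LMat Bool × LMat Bool) × List ℕ) × ℕ => x.1.1.2.n)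
    (p := fun x j => (decide (x.2 = j) || !(decide (x.1.2.getD x.2 0 = x.1.2.getD j 0))) &&
      (!(x.1.1.2.ent false x.2 j) || x.1.1.1.ent false (x.1.2.getD x.2 0) (x.1.2.getD j 0)))
    (UPoly.lmat_n (by fun_prop)) (by fun_prop)

theorem sz_ofFn_le {n k : ℕ} (f : Fin n → Fin k) :
    sz (List.ofFn (fun i => (f i : ℕ))) ≤ n * (4 * k + 2) + 1 := by
  have h := sz_le_length_mul (List.ofFn (fun i => (f i : ℕ))) (4 * k + 1) (by
    intro a ha
    rw [List.mem_ofFn] at ha
    obtain ⟨i, rfl⟩ := ha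
    have h1 := sz_nat_le (f i : ℕ)
    have h2 : ((f i : ℕ)).size ≤ (f i : ℕ) := Nat.size_le.2 Nat.lt_two_pow_self
    have h3 := (f i).isLt
    omega)
  simpa using h

theorem ofFn_getD {n k : ℕ} (f : Fin n → Fin k) (i : Fin n) :
    (List.ofFn (fun i => (f i : ℕ))).getD i 0 = f i := by
  simp [List.getD_eq_getElem?_getD]

theorem inNPP_fin {m : ℕ} (F : SimpleGraph (Fin m)) : InNPP (SubIso F) := by
  refine inNPP_sub (fun a : FG × FG => (a.1.mat, a.2.mat)) (fun _ => rfl)
    (ver_poly m (edgesL F))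
    (Polynomial.C 16 * Polynomial.X * Polynomial.X + Polynomial.C 16 *
    Polynomial.X + Polynomial.C 16) (fun y => okFG y.1 && okFG y.2) ?_ ?_ ?_ ?_
  · exact NPC.Poly.and (okFG_poly.comp (NPC.Poly.fst NPC.Poly.id))
      (okFG_poly.comp (NPC.Poly.snd NPC.Poly.id))
  · rintro ⟨M, M'⟩ hM
    rw [Bool.and_eq_true] at hM
    exact ⟨(FG.ofMat M ((okFG_iff M).1 hM.1), FG.ofMat M' ((okFG_iff M').1 hM.2)), by
      simp [FG.mat_ofMat]⟩
  · intro a
    rw [Bool.and_eq_true]
    exact ⟨(okFG_iff _).2 a.1.isAdj, (okFG_iff _).2 a.2.isAdj⟩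
  · rintro ⟨G, H⟩
    unfold SubIso
    have hv : ∀ l : List ℕ, ver m (edgesL F) ((G.mat, H.mat), l) = true ↔
        (F.Free G.G ∧ F.Free H.G) ∧ ∀ i < H.n, l.getD i 0 < G.n ∧ ∀ j < H.n,
          (i = j ∨ ¬ l.getD i 0 = l.getD j 0) ∧
          (H.mat.ent false i j = false ∨ G.mat.ent false (l.getD i 0) (l.getD j 0) = true) := by
      intro l
      unfold ver
      simp only [Bool.and_eq_true, List.all_eq_true, List.mem_range, decide_eq_true_eq,
        Bool.or_eq_true, Bool.not_eq_true', decide_eq_false_iff_not, FG.mat_n]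
      refine and_congr (and_congr ?_ ?_) Iff.rfl
      · rw [← Bool.not_eq_true, hasCopy_iff]
      · rw [← Bool.not_eq_true, hasCopy_iff]
    constructor
    · rintro ⟨hfree, hc⟩
      rw [isContained_iff_fun] at hc
      obtain ⟨f, hf, hadj⟩ := hc
      refine ⟨List.ofFn (fun i => (f i : ℕ)), ?_, (hv _).2 ⟨hfree, ?_⟩⟩
      · have e1 := sz_ofFn_le f
        have e2 : G.n < sz G.mat := sz_mat_gt G.mat
        have e3 : H.n < sz H.mat := sz_mat_gt H.mat
        have e4 : sz (G.mat, H.mat) = sz G.mat + sz H.mat + 1 := sz_pair _ _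
        simp only
        rw [e4]
        simp only [Polynomial.eval_add, Polynomial.eval_mul, Polynomial.eval_X,
          Polynomial.eval_C]
        have e5 : H.n * (4 * G.n + 2) ≤ sz H.mat * (4 * sz G.mat + 2) := by gcongr
        refine e1.trans ?_
        nlinarith [sz_pos G.mat, sz_pos H.mat]
      · intro i hi
        have g1 := ofFn_getD f ⟨i, hi⟩
        simp only at g1
        rw [g1]
        refine ⟨(f ⟨i, hi⟩).isLt, fun j hj => ?_⟩
        have g2 := ofFn_getD f ⟨j, hj⟩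
        simp only at g2
        rw [g2]
        refine ⟨?_, ?_⟩
        · by_cases hij : i = j
          · exact Or.inl hij
          · right
            intro h
            exact hij (congrArg Fin.val (hf (Fin.ext h)))
        · by_cases hij : H.mat.ent false i j = true
          · right
            exact (G.ent_iff _ _).2 (hadj _ _ ((H.ent_iff ⟨i, hi⟩ ⟨j, hj⟩).1 hij))
          · left
            simpa using hij
    · rintro ⟨l, _, h⟩
      obtain ⟨hfree, h⟩ := (hv l).1 h
      refine ⟨hfree, ?_⟩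
      rw [isContained_iff_fun]
      refine ⟨fun i => ⟨l.getD i 0, (h i i.isLt).1⟩, ?_, ?_⟩
      · intro i j hij
        rcases ((h i i.isLt).2 j j.isLt).1 with h1 | h1
        · exact Fin.ext h1
        · exact absurd (congrArg Fin.val hij) h1
      · intro i j hij
        rcases ((h i i.isLt).2 j j.isLt).2 with h1 | h1
        · rw [(H.ent_iff i j).2 hij] at h1
          exact absurd h1 (by simp)
        · exact (G.ent_iff ⟨l.getD i 0, _⟩ ⟨l.getD j 0, _⟩).1 h1

theorem free_iff_of_iso {V W U : Type} {F : SimpleGraph V} {F' : SimpleGraph W} (e : F ≃g F')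
    (G : SimpleGraph U) : F.Free G ↔ F'.Free G := by
  unfold SimpleGraph.Free
  rw [isContained_iff_fun, isContained_iff_fun]
  apply not_congr
  constructor
  · rintro ⟨f, hf, h⟩
    exact ⟨f ∘ e.symm, hf.comp e.symm.injective, fun x y hxy => h _ _ (e.symm.map_adj_iff.2 hxy)⟩
  · rintro ⟨f, hf, h⟩
    exact ⟨f ∘ e, hf.comp e.injective, fun x y hxy => h _ _ (e.map_adj_iff.2 hxy)⟩

theorem inNPP_subIso {W : Type} [Finite W] (F : SimpleGraph W) : InNPP (SubIso F) := by
  obtain ⟨m, ⟨e⟩⟩ := Finite.exists_equiv_fin W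
  let F' : SimpleGraph (Fin m) := F.comap e.symm
  have iso : F' ≃g F := ⟨e.symm, Iff.rfl⟩
  have h : SubIso F = SubIso F' := by
    funext I
    unfold SubIso
    rw [free_iff_of_iso iso, free_iff_of_iso iso]
  rw [h]
  exact inNPP_fin F'

/-! ### The reduction from the clique problem -/

section Red

/-- labels of centres: block, position, and a truth value -/
abbrev LabZ : Type := (ℕ × ℕ) × Bool

/-- labels of vertices: centre and number of the leaf -/
abbrev Lab : Type := LabZ × ℕ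

/-- the edges, in one direction -/
def adB (r : LabZ → LabZ → Bool) (x y : Lab) : Bool :=
  (decide (x.1 = y.1) && (decide (x.2 = 0) && !(decide (y.2 = 0)))) ||
  ((decide (x.2 = 0) && decide (y.2 = 0)) && r x.1 y.1)

/-- the vertices -/
def vsL (n B : ℕ) (a : LabZ → ℕ) : List Lab :=
  ((((List.range (n + 1)) ×ˢ (List.range (n + 1))) ×ˢ [false, true]) ×ˢ (List.range B)).filter
    (fun x => decide (x.2 ≤ a x.1))

/-- joined centres of the host -/
def rH (n : ℕ) (g : ℕ → ℕ → Bool) (z w : LabZ) : Bool :=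
  (decide (z.1.1 = w.1.2) && decide (z.1.2 = w.1.1)) &&
    (con n g z.1.1 z.1.2 && !(decide (z.2 = w.2)))

/-- joined centres of the pattern -/
def rP (n : ℕ) (g : ℕ → ℕ → Bool) (z w : LabZ) : Bool :=
  (decide (z.1.1 = w.1.2) && decide (z.1.2 = w.1.1)) &&
    (con n g z.1.1 z.1.2 && (!(z.2) && !(w.2)))

/-- non-adjacency -/
def gM (M : LMat Bool) (p q : ℕ) : Bool := !(M.ent false p q)

/-- the host -/
def host (I : LMat Bool × ℕ) : FG :=
  FG.ofList (vsL I.1.n ((I.1.n + 2) * (I.1.n + 2)) (fun z => aH I.1.n z.1.1 z.1.2 z.2))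
    (adB (rH I.1.n (gM I.1)))

/-- the pattern -/
def pat (I : LMat Bool × ℕ) : FG :=
  FG.ofList (vsL I.1.n ((I.1.n + 2) * (I.1.n + 2)) (fun z => aP I.1.n I.2 z.1.1 z.1.2 z.2))
    (adB (rP I.1.n (gM I.1)))

theorem con_poly {α : Type} [TEnc α] {M : α → LMat Bool} {p q : α → ℕ} (hM : Poly M)
    (hp : Poly p) (hq : Poly q) : Poly (fun a => con (M a).n (gM (M a)) (p a) (q a)) := by
  unfold con gM
  fun_prop

theorem fH_poly {α : Type} [TEnc α] {n p q : α → ℕ} {s : α → Bool} (hn : Poly n)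
    (hp : Poly p) (hq : Poly q) (hs : Poly s) : Poly (fun a => fH (n a) (p a) (q a) (s a)) := by
  unfold fH
  fun_prop

theorem fP_poly {α : Type} [TEnc α] {n k p q : α → ℕ} {s : α → Bool} (hn : Poly n)
    (hk : Poly k) (hp : Poly p) (hq : Poly q) (hs : Poly s) :
    Poly (fun a => fP (n a) (k a) (p a) (q a) (s a)) := by
  unfold fP
  fun_prop

attribute [local fun_prop] con_poly fH_poly fP_poly

theorem range_poly : Poly (fun I : LMat Bool × ℕ => List.range (I.1.n + 1)) :=
  UPoly.range (UPoly.add (UPoly.lmat_n (by fun_prop)) (UPoly.const 1))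

theorem rangeB_poly : Poly (fun I : LMat Bool × ℕ => List.range ((I.1.n + 2) * (I.1.n + 2))) :=
  UPoly.range (UPoly.mul (UPoly.add (UPoly.lmat_n (by fun_prop)) (UPoly.const 2))
    (UPoly.add (UPoly.lmat_n (by fun_prop)) (UPoly.const 2)))

theorem vsL_poly {a : LMat Bool × ℕ → LabZ → ℕ}
    (ha : Poly (fun x : (LMat Bool × ℕ) × Lab => a x.1 x.2.1)) :
    Poly (fun I => vsL I.1.n ((I.1.n + 2) * (I.1.n + 2)) (a I)) := by
  unfold vsL
  have h1 := range_poly
  have h2 := rangeB_poly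
  refine NPC.Poly.filter (p := fun (I : LMat Bool × ℕ) (x : Lab) => decide (x.2 ≤ a I x.1))
    (by fun_prop) ?_
  exact NPC.Poly.decide_le (by fun_prop) ha

theorem host_poly : Poly host := by
  unfold host
  refine Poly.FG_ofList (ad := fun I : LMat Bool × ℕ => adB (rH I.1.n (gM I.1))) ?_ ?_
  · refine vsL_poly (a := fun I z => aH I.1.n z.1.1 z.1.2 z.2) ?_
    unfold aH
    fun_prop
  · unfold adB rH
    fun_prop

theorem pat_poly : Poly pat := by
  unfold pat
  refine Poly.FG_ofList (ad := fun I : LMat Bool × ℕ => adB (rP I.1.n (gM I.1))) ?_ ?_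
  · refine vsL_poly (a := fun I z => aP I.1.n I.2 z.1.1 z.1.2 z.2) ?_
    unfold aP
    fun_prop
  · unfold adB rP
    fun_prop

/-- the label of a centre -/
def lz {n : ℕ} (z : ZT n) : LabZ := (((z.1.1 : ℕ), (z.1.2 : ℕ)), z.2)

theorem lz_injective {n : ℕ} : Function.Injective (lz : ZT n → LabZ) := by
  rintro ⟨⟨p, q⟩, s⟩ ⟨⟨p', q'⟩, s'⟩ h
  simp only [lz, Prod.mk.injEq] at h
  obtain ⟨⟨h1, h2⟩, h3⟩ := h
  rw [Fin.ext h1, Fin.ext h2, h3]

/-- The graph of a list of labels is the graph of stars and double stars. -/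
theorem exists_iso {n : ℕ} (a : LabZ → ℕ) (r : LabZ → LabZ → Bool) (R : ZT n → ZT n → Prop)
    (ha : ∀ z : ZT n, a (lz z) < (n + 2) * (n + 2)) (hr : ∀ z w, r (lz z) (lz w) = true ↔ R z w) :
    Nonempty ((FG.ofList (vsL n ((n + 2) * (n + 2)) a) (adB r)).G ≃g
      CG (fun z : ZT n => a (lz z)) R) := by
  refine FG.ofList_iso (vsL n ((n + 2) * (n + 2)) a) ?_
    (fun x : VT (ZT n) (fun z => a (lz z)) => ((lz x.1.1, x.1.2) : Lab)) ?_ ?_ (adB r)
    (CG (fun z : ZT n => a (lz z)) R) ?_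
  · unfold vsL
    refine List.Nodup.filter _ ?_
    refine List.Nodup.product (List.Nodup.product (List.Nodup.product List.nodup_range
      List.nodup_range) ?_) List.nodup_range
    simp
  · rintro ⟨⟨z, i⟩, hi⟩ ⟨⟨w, j⟩, hj⟩ h
    simp only [Prod.mk.injEq] at h
    obtain ⟨h1, rfl⟩ := h
    have h2 := lz_injective h1
    subst h2
    rfl
  · rintro ⟨⟨⟨p, q⟩, s⟩, i⟩
    unfold vsL
    rw [List.mem_filter, List.mem_product, List.mem_product, List.mem_product, List.mem_range,
      List.mem_range, List.mem_range, decide_eq_true_eq]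
    constructor
    · rintro ⟨⟨⟨⟨h1, h2⟩, _⟩, _⟩, h3⟩
      exact ⟨⟨(((⟨p, h1⟩, ⟨q, h2⟩), s), i), h3⟩, rfl⟩
    · rintro ⟨⟨⟨⟨⟨p', q'⟩, s'⟩, i'⟩, hi⟩, h⟩
      simp only [lz, Prod.mk.injEq] at h
      obtain ⟨⟨⟨rfl, rfl⟩, rfl⟩, rfl⟩ := h
      refine ⟨⟨⟨⟨p'.isLt, q'.isLt⟩, ?_⟩, ?_⟩, hi⟩
      · cases s' <;> simp
      · exact lt_of_le_of_lt hi (ha ((p', q'), s'))
  · rintro ⟨⟨z, i⟩, hi⟩ ⟨⟨w, j⟩, hj⟩
    unfold CG adB
    simp only [Bool.or_eq_true, Bool.and_eq_true, decide_eq_true_eq, Bool.not_eq_true',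
      decide_eq_false_iff_not, hr, lz_injective.eq_iff, ne_eq, Subtype.mk.injEq, Prod.mk.injEq]
    by_cases h1 : z = w <;> by_cases h2 : i = 0 <;> by_cases h3 : j = 0 <;>
      simp [h1, h2, h3, eq_comm] <;> tauto

theorem ent_out {M : LMat Bool} {p q : ℕ} (h : ¬ (p < M.n ∧ q < M.n)) : M.ent false p q = false := by
  unfold LMat.ent
  by_cases hp : p < M.rows.length
  · rw [List.getD_eq_getElem _ _ hp]
    have hq : ¬ q < M.n := fun hq => h ⟨by simpa using hp, hq⟩
    rw [List.getD_eq_default]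
    unfold LMat.rows
    rw [List.getElem_ofFn, List.length_ofFn]
    omega
  · rw [List.getD_eq_default M.rows [] (by omega)]
    rfl

theorem gM_symm {M : LMat Bool} (h : IsAdj M) (p q : ℕ) : gM M p q = gM M q p := by
  unfold gM
  congr 1
  by_cases hp : p < M.n ∧ q < M.n
  · rw [LMat.ent_lt M false hp.1 hp.2, LMat.ent_lt M false hp.2 hp.1]
    exact h.1 _ _
  · rw [ent_out hp, ent_out (fun hq => hp ⟨hq.2, hq.1⟩)]

theorem bound_lt {n p f : ℕ} (hp : p < n + 1) (hf : f < n + 2) :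
    (n + 2) * (p + 1) + f < (n + 2) * (n + 2) := by
  nlinarith

/-- The host and the pattern are graphs of stars and double stars, and the host contains the
pattern iff there is a clique. -/
theorem red_spec (I : LMat Bool × ℕ) (h : IsAdj I.1) :
    ((pathGraph 5).Free (host I).G ∧ (pathGraph 5).Free (pat I).G) ∧
      (CliqueM I ↔ (pat I).G.IsContained (host I).G) := by
  obtain ⟨M, k⟩ := I
  have hg := gM_symm h
  obtain ⟨e1⟩ := exists_iso (n := M.n) (fun z => aH M.n z.1.1 z.1.2 z.2) (rH M.n (gM M))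
    (RH M.n (gM M)) (fun z => bound_lt z.1.1.isLt (fH_lt _ _ _)) (by
      intro z w
      unfold rH RH lz
      simp only [Bool.and_eq_true, decide_eq_true_eq, Bool.not_eq_true', decide_eq_false_iff_not,
        Fin.ext_iff, and_assoc, ne_eq])
  obtain ⟨e2⟩ := exists_iso (n := M.n) (fun z => aP M.n k z.1.1 z.1.2 z.2) (rP M.n (gM M))
    (RP M.n (gM M)) (fun z => bound_lt z.1.1.isLt (fP_lt _ _ _)) (by
      intro z w
      unfold rP RP lz
      simp only [Bool.and_eq_true, decide_eq_true_eq, Bool.not_eq_true',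
        Fin.ext_iff, and_assoc])
  have hH : (host (M, k)).G = (FG.ofList (vsL M.n ((M.n + 2) * (M.n + 2))
    (fun z => aH M.n z.1.1 z.1.2 z.2)) (adB (rH M.n (gM M)))).G := rfl
  have hP : (pat (M, k)).G = (FG.ofList (vsL M.n ((M.n + 2) * (M.n + 2))
    (fun z => aP M.n k z.1.1 z.1.2 z.2)) (adB (rP M.n (gM M)))).G := rfl
  refine ⟨⟨?_, ?_⟩, ?_⟩
  · intro hc
    rw [hH] at hc
    exact free_p5 (mt_RH hg) (hc.trans ⟨e1.toCopy⟩)
  · intro hc
    rw [hP] at hc
    exact free_p5 (mt_RP hg) (hc.trans ⟨e2.toCopy⟩)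
  · have h1 : CliqueM (M, k) ↔ ∃ K : Finset (Fin M.n), K.card = k ∧
        ∀ u ∈ K, ∀ v ∈ K, u ≠ v → gM M u v = false := by
      unfold CliqueM HasK gM
      simp only [Bool.not_eq_false', LMat.ent_fin]
    rw [h1, ← core hg]
    have h2 : (pat (M, k)).G.IsContained (host (M, k)).G ↔
        (CG (fun z : ZT M.n => aP M.n k z.1.1 z.1.2 z.2) (RP M.n (gM M))).IsContained
          (CG (fun z : ZT M.n => aH M.n z.1.1 z.1.2 z.2) (RH M.n (gM M))) := by
      rw [hH, hP]
      constructor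
      · intro hc
        exact (IsContained.trans ⟨e2.symm.toCopy⟩ hc).trans ⟨e1.toCopy⟩
      · intro hc
        exact (IsContained.trans ⟨e2.toCopy⟩ hc).trans ⟨e1.symm.toCopy⟩
    rw [h2, contained_iff (fun z => aP_ge _ _ _)]
    constructor
    · rintro ⟨φ, h3, h4⟩
      refine ⟨φ, h3, fun z w _ hzw => Or.inl ?_⟩
      exact hzw.elim (h4 z w) (fun h5 => h4 z w (RP_symm hg h5))
    · rintro ⟨φ, h3, h4⟩
      refine ⟨φ, h3, fun z w hzw => ?_⟩
      have hne : z ≠ w := by
        intro h5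
        subst h5
        obtain ⟨h6, _, h7, _⟩ := hzw
        unfold con at h7
        rw [h6] at h7
        simp at h7
      exact (h4 z w hne (Or.inl hzw)).elim id (RH_symm hg)

/-- Subgraph Isomorphism is `NP`-hard with the promise that both graphs are `P₅`-subgraph-free. -/
theorem hardPr_subIso : HardPr
    (fun I : FG × FG => (pathGraph 5).Free I.1.G ∧ (pathGraph 5).Free I.2.G)
    (fun I : FG × FG => I.2.G.IsContained I.1.G) :=
  hardPr_cliqueM.trans (f := fun I => (host I, pat I))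
    (NPC.Poly.pair host_poly pat_poly) (fun I hI => (red_spec I hI).1)
    (fun I hI => (red_spec I hI).2)

theorem npHard {W : Type} (F : SimpleGraph W) (hF : (pathGraph 5).IsContained F) :
    NPHardP (SubIso F) := by
  refine (hardPr_subIso.trans (Pr' := fun _ => True) (f := fun X => X) NPC.Poly.id
    (fun _ _ => trivial) (fun X hX => ?_)).toHardI.toNPHardP
  exact ⟨fun h => ⟨⟨fun hc => hX.1 (hF.trans hc), fun hc => hX.2 (hF.trans hc)⟩, h⟩, fun h => h.2⟩

end Red

/-- **Subgraph Isomorphism on `F`-subgraph-free graphs is `NP`-complete for every finite graph `F`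
that contains `P₅`**, in particular for `F = P₅` and for `F = 2P₅`. Moreover every language in `NP`
has a polynomial-time reduction to Subgraph Isomorphism all whose images are pairs of
`P₅`-subgraph-free graphs. -/
theorem result : (InNPP (SubIso (pathGraph 5)) ∧ NPHardP (SubIso (pathGraph 5))) ∧
    (InNPP (SubIso (pathGraph 5 ⊕g pathGraph 5)) ∧
      NPHardP (SubIso (pathGraph 5 ⊕g pathGraph 5))) ∧
    (∀ (W : Type) [Finite W] (F : SimpleGraph W), (pathGraph 5).IsContained F →
      InNPP (SubIso F) ∧ NPHardP (SubIso F)) ∧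
    ∀ L, InNP L → ∃ f : List Bool → List Bool, PolyTime f ∧ ∀ x, ∃ I : FG × FG, f x = bits I ∧
      (pathGraph 5).Free I.1.G ∧ (pathGraph 5).Free I.2.G ∧
      (x ∈ L ↔ I.2.G.IsContained I.1.G) := by
  have h : ∀ (W : Type) [Finite W] (F : SimpleGraph W), (pathGraph 5).IsContained F →
      InNPP (SubIso F) ∧ NPHardP (SubIso F) := fun W _ F hF => ⟨inNPP_subIso F, npHard F hF⟩
  refine ⟨h _ _ (IsContained.refl _), h _ _ ⟨(Embedding.sumInl).toCopy⟩, h, ?_⟩
  intro L hL
  obtain ⟨f, hf, hf1, hf2⟩ := hardPr_subIso L hL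
  exact ⟨fun x => bits (f x), PC.toPolyTime hf,
    fun x => ⟨f x, rfl, (hf1 x).1, (hf1 x).2, hf2 x⟩⟩

end Pool.Agent.Results.MP_143e72_lc.SubIsoP5NPComplete
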